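import Pool.Agent.Helper72.TA.WAJ
import Pool.Agent.Helper96.TWR.DNS

/-! Row RSS of the sheet TA (MP_7a8f48_an): the next stage is relatively independent. -/

set_option linter.unusedSectionVars false

open MeasureTheory Filter Topology Finset
open scoped ComplexConjugate

namespace Pool.Agent.Helper72.TA

open Pool.Agent.Helper98.TW
open Pool.Agent.Helper40.TWM (St)
open Pool.Agent.Helper98.GY (JY)
open Pool.Agent.Helper98.TA
open Pool.Agent.Helper73.TWR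

section

variable {Ω : Type} [m0 : MeasurableSpace Ω] {μ : Measure Ω} {E E' : SA Ω}

/-- the functions of modulus one which are measurable for `E` -/
def UE (μ : Measure Ω) (E : SA Ω) : Set (Ω → ℂ) :=
  {φ | Measurable φ ∧ (∀ x, ‖φ x‖ = 1) ∧ AM μ E φ}

theorem grp_UE : Grp μ (UE μ E) where
  uf := fun _ h => ⟨h.1, Eventually.of_forall h.2.1⟩
  one := ⟨measurable_const, fun _ => norm_one, Pool.Agent.Helper98.TW.am_const 1⟩
  mul := fun _ h _ h' => ⟨h.1.mul h'.1, fun x => by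
    rw [norm_mul, h.2.1, h'.2.1, one_mul], am_mul h.2.2 h'.2.2⟩
  inv := fun _ h => ⟨Complex.continuous_conj.measurable.comp h.1, fun x => by
    rw [RCLike.norm_conj, h.2.1], am_conj h.2.2⟩

/-- the unimodular functions generate the algebra -/
theorem cm_le_sg {Ω' : Type} [MeasurableSpace Ω'] (π : Ω' → Ω) (hE : Lm E) :
    @LE.le (MeasurableSpace Ω') _ (cm π E) (sg {ψ | ∃ φ ∈ UE μ E, ψ = fun z => φ (π z)}) := by
  classical
  rintro _ ⟨t, ht, rfl⟩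
  have hm : Measurable[E] (fun x => if x ∈ t then (-1 : ℂ) else 1) :=
    Measurable.ite ht (@measurable_const _ _ _ E (-1 : ℂ)) (@measurable_const _ _ _ E (1 : ℂ))
  have hφ : (fun x => if x ∈ t then (-1 : ℂ) else 1) ∈ UE μ E := by
    refine ⟨hm.mono hE le_rfl, fun x => ?_, am_of hm⟩
    by_cases hx : x ∈ t
    · simp [hx]
    · simp [hx]
  refine le_sg (Φ := {ψ | ∃ φ ∈ UE μ E, ψ = fun z => φ (π z)})
    (φ := fun z => (fun x => if x ∈ t then (-1 : ℂ) else 1) (π z)) ⟨_, hφ, rfl⟩ _ ?_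
  refine ⟨{-1}, measurableSet_singleton _, ?_⟩
  ext z
  by_cases hz : π z ∈ t
  · simp [hz]
  · simp only [Set.mem_preimage, Set.mem_singleton_iff, hz, iff_false, if_false]
    intro h
    have h2 : (2 : ℂ) = 0 := by linear_combination h
    exact two_ne_zero h2

theorem bf_UE {φ F : Ω → ℂ} (hφ : φ ∈ UE μ E) (hF : BF F) :
    BF (fun x => conj (φ x) * F x) := by
  obtain ⟨h1, B, hB⟩ := hF
  refine ⟨(Complex.continuous_conj.measurable.comp hφ.1).mul h1, B, fun x => ?_⟩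
  rw [norm_mul, RCLike.norm_conj, hφ.2.1, one_mul]
  exact hB x

variable [IsProbabilityMeasure μ] {S S' : Ω → Ω} {s : SA Ω} {p q : ℕ} {κ : Measure (Ω × Ω)}

/-- functions which are orthogonal to `fr μ S E` -/
theorem rss_zero (hWAL : ST_WAL) (hWTC : ST_WTC) (hWM1 : ST_WM1) {u : ℕ → Ω → ℂ}
    {A : ℕ → SA Ω} {N : ℕ} (hSt : St μ S S') (hTr : Tr μ S u A N) (hs : IA μ s S S')
    (hCt : Ct μ S s E) (hSa : Sa μ S E) (hRi : Ri μ S s) (hp : 1 ≤ p) (hq : 1 ≤ q)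
    (hκ : JY S μ p q κ) {F : Ω → ℂ} (hF : BF F) (h0 : μ[F|fr μ S E] =ᵐ[μ] 0) :
    κ[fun z => F z.1|jo (J1 s) (J2 (fr μ S E))] =ᵐ[κ] 0 := by
  have hP : IsProbabilityMeasure κ := hκ.prob
  have hS : Sys μ S S' := Pool.Agent.Helper98.TA.St.s1 hSt
  have hE : IA μ E S S' := hCt.ia hS hs
  have hsys := sys_jy hS hκ
  have hJ : IA κ (jo (J1 s) (J2 E)) (Prod.map S^[p] S^[q]) (Prod.map S'^[p] S'^[q]) :=
    Pool.Agent.Helper98.TA.ia_jo hsys (ia_J1 hS hκ hs) (ia_J2 hS hκ hE)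
  have h1 : A0 μ E S^[p] F := hWAL Ω μ S S' u A N E F hSt hTr hE hSa hF h0 p hp
  have h2 := st_WAJ Ω μ S S' s E F p q κ hSt hs hE (lq_of_le hCt.le) hF hRi h1 hp hq hκ
  have h3 := hWTC Ω μ S S' s E F p q κ hSt hs hCt hF hp hq hκ h2
  have hF1 : BF (fun z : Ω × Ω => F z.1) := by
    obtain ⟨hFm, B, hB⟩ := hF
    exact ⟨hFm.comp measurable_fst, B, fun z => hB z.1⟩
  have h4 := (hWM1 (Ω × Ω) κ _ _ (jo (J1 s) (J2 E)) (fun z => F z.1) hsys hJ hF1 h3).2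
    {ψ | ∃ φ ∈ Ga μ S E, ψ = fun z => φ z.2} (grp_comp (jy_mp2 hκ) grp_Ga) ?_
  · have e : jo (jo (J1 s) (J2 E)) (sg {ψ | ∃ φ ∈ Ga μ S E, ψ = fun z : Ω × Ω => φ z.2}) =
        jo (J1 s) (J2 (fr μ S E)) := by
      have e1 : J2 (fr μ S E) =
          jo (J2 E) (sg {ψ | ∃ φ ∈ Ga μ S E, ψ = fun z : Ω × Ω => φ z.2}) :=
        cm_sg Prod.snd E (Ga μ S E)
      rw [e1, jo_assoc]
    rw [e] at h4
    exact h4
  · rintro ψ ⟨φ, hφ, rfl⟩
    exact inc_mono lq_jo_right (inc_J2 Pool.Agent.Helper96.TWR.st_PFC hS hκ hE.1 hφ.1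
      (inc_iter hE hS hφ.1 hφ.2 q))

/-- the same for both algebras -/
theorem rss_zero2 (hWAL : ST_WAL) (hWTC : ST_WTC) (hWM1 : ST_WM1) {u : ℕ → Ω → ℂ}
    {A : ℕ → SA Ω} {N : ℕ} (hSt : St μ S S') (hTr : Tr μ S u A N) (hs : IA μ s S S')
    (hCt : Ct μ S s E) (hSa : Sa μ S E) (hRi : Ri μ S s) (hp : 1 ≤ p) (hq : 1 ≤ q)
    (hκ : JY S μ p q κ) {F : Ω → ℂ} (hF : BF F) (h0 : μ[F|fr μ S E] =ᵐ[μ] 0) :
    κ[fun z => F z.1|jo (J1 (fr μ S E)) (J2 (fr μ S E))] =ᵐ[κ] 0 := by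
  have hP : IsProbabilityMeasure κ := hκ.prob
  have hS : Sys μ S S' := Pool.Agent.Helper98.TA.St.s1 hSt
  have hE : IA μ E S S' := hCt.ia hS hs
  have hE' : IA μ (fr μ S E) S S' := ia_fr hS hE
  set E' : SA Ω := fr μ S E with hE'def
  have lF : Lm E' := hE'.1
  set Φ : Set (Ω × Ω → ℂ) := {ψ | ∃ φ ∈ UE μ E', ψ = fun z => φ z.1} with hΦ
  have hgrp : Grp κ Φ := grp_comp (jy_mp1 hκ) grp_UE
  have lJ : Lm (jo (J2 E') (sg Φ)) :=
    lm_jo (lm_J2 lF) (lm_sg fun φ hφ => (hgrp.uf φ hφ).1)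
  have hF1 : BF (fun z : Ω × Ω => F z.1) := by
    obtain ⟨hFm, B, hB⟩ := hF
    exact ⟨hFm.comp measurable_fst, B, fun z => hB z.1⟩
  have hle : LQ κ (jo (J1 E') (J2 E')) (jo (J2 E') (sg Φ)) :=
    lq_jo (lq_trans (lq_of_le (cm_le_sg Prod.fst lF)) lq_jo_right) lq_jo_left
  refine ce_zero_lq (lm_jo (lm_J1 lF) (lm_J2 lF)) lJ hle hF1.ab.int ?_
  refine Pool.Agent.Helper96.TWR.st_DNS (Ω × Ω) κ (J2 E') Φ _ (lm_J2 lF) hgrp ce_int ce_am ?_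
  rintro ψ ⟨φ, hφ, rfl⟩
  have hφu : UF κ (fun z : Ω × Ω => φ z.1) := hgrp.uf _ ⟨φ, hφ, rfl⟩
  have hφm : AM κ (jo (J2 E') (sg Φ)) (fun z : Ω × Ω => φ z.1) :=
    am_jo_right (Pool.Agent.Helper98.TW.am_sg ⟨φ, hφ, rfl⟩)
  have hint : Integrable (fun z : Ω × Ω => conj (φ z.1) * F z.1) κ :=
    (hφu.conj.ab.mul hF1.ab).int
  -- the function `conj φ F`
  have hG : BF (fun x => conj (φ x) * F x) := bf_UE hφ hF
  have hG0 : μ[fun x => conj (φ x) * F x|E'] =ᵐ[μ] 0 :=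
    ce_mul_zero (am_conj hφ.2.2) (bf_int hG) (bf_int hF) h0
  have h1 := rss_zero hWAL hWTC hWM1 hSt hTr hs hCt hSa hRi hp hq hκ hG hG0
  have h2 : κ[fun z : Ω × Ω => conj (φ z.1) * F z.1|J2 E'] =ᵐ[κ] 0 :=
    ce_zero_lq (lm_J2 lF) (lm_jo (lm_J1 hs.1) (lm_J2 lF)) lq_jo_right hint h1
  -- compare
  have h3 : κ[fun z : Ω × Ω => conj (φ z.1) * F z.1|jo (J2 E') (sg Φ)] =ᵐ[κ]
      fun z => conj (φ z.1) * (κ[fun z => F z.1|jo (J2 E') (sg Φ)]) z :=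
    pullb (am_conj hφm) hφu.conj.ab hF1.ab.int
  have h4 := ce_tower (μ := κ) (F := fun z : Ω × Ω => conj (φ z.1) * F z.1) (lm_J2 lF) lJ
    lq_jo_left hint
  have h5 : κ[κ[fun z : Ω × Ω => conj (φ z.1) * F z.1|jo (J2 E') (sg Φ)]|J2 E'] =ᵐ[κ]
      κ[fun z => (κ[fun z => F z.1|jo (J2 E') (sg Φ)]) z * conj (φ z.1)|J2 E'] := by
    refine ce_congr ?_
    filter_upwards [h3] with z hz
    rw [hz, mul_comm]
  exact h5.symm.trans (h4.trans h2)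

end

/-- RSS -/
theorem st_RSS (hWAL : ST_WAL) (hWTC : ST_WTC) (hWM1 : ST_WM1) : ST_RSS := by
  intro Ω m0 μ hμ S S' u A N s E hSt hTr hs hCt hSa hRi p q κ hp hq hκ F hF
  have hP : IsProbabilityMeasure κ := hκ.prob
  have hS : Sys μ S S' := Pool.Agent.Helper98.TA.St.s1 hSt
  have hE : IA μ E S S' := hCt.ia hS hs
  have hE' : IA μ (fr μ S E) S S' := ia_fr hS hE
  set E' : SA Ω := fr μ S E with hE'def
  have lF : Lm E' := hE'.1
  have lJ : Lm (jo (J1 E') (J2 E')) := lm_jo (lm_J1 lF) (lm_J2 lF)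
  obtain ⟨G, hG, hGA, hGF⟩ := ce_bf (μ := μ) lF hF
  have hD : BF (fun x => F x - G x) := bf_sub hF hG
  have hD0 : μ[fun x => F x - G x|E'] =ᵐ[μ] 0 := by
    have a1 := ce_sub (μ := μ) (𝒜 := E') (bf_int hF) (bf_int hG)
    have a2 := ce_of_am lF (bf_int (μ := μ) hG) hGA
    filter_upwards [a1, a2, hGF] with x b1 b2 b3
    rw [b1, b2, b3]
    simp
  have h1 := rss_zero2 hWAL hWTC hWM1 hSt hTr hs hCt hSa hRi hp hq hκ hD hD0
  have hF1 : BF (fun z : Ω × Ω => F z.1) := by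
    obtain ⟨hFm, B, hB⟩ := hF
    exact ⟨hFm.comp measurable_fst, B, fun z => hB z.1⟩
  have hG1 : BF (fun z : Ω × Ω => G z.1) := by
    obtain ⟨hFm, B, hB⟩ := hG
    exact ⟨hFm.comp measurable_fst, B, fun z => hB z.1⟩
  have h2 : κ[fun z : Ω × Ω => F z.1 - G z.1|jo (J1 E') (J2 E')] =ᵐ[κ]
      fun z => (κ[fun z => F z.1|jo (J1 E') (J2 E')]) z -
        (κ[fun z => G z.1|jo (J1 E') (J2 E')]) z := ce_sub hF1.ab.int hG1.ab.int
  have hGJ : AM κ (J1 E') (fun z : Ω × Ω => G z.1) :=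
    (am_J1 Pool.Agent.Helper96.TWR.st_PFC hκ lF hG.1.aestronglyMeasurable).2 hGA
  have h3 : κ[fun z : Ω × Ω => G z.1|jo (J1 E') (J2 E')] =ᵐ[κ] fun z => G z.1 :=
    ce_of_am lJ hG1.ab.int (am_jo_left hGJ)
  have h4 : κ[fun z : Ω × Ω => F z.1|J1 E'] =ᵐ[κ] fun z => (μ[F|E']) z.1 :=
    ce_J1 Pool.Agent.Helper96.TWR.st_PFC hκ lF (bf_int hF)
  have h5 : ∀ᵐ z ∂κ, G z.1 = (μ[F|E']) z.1 := (jy_mp1 hκ).quasiMeasurePreserving.ae hGF
  filter_upwards [h1, h2, h3, h4, h5] with z c1 c2 c3 c4 c5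
  rw [c4, ← c5]
  have c6 : (κ[fun z : Ω × Ω => F z.1 - G z.1|jo (J1 E') (J2 E')]) z = 0 := c1
  rw [c2, c3] at c6
  exact sub_eq_zero.1 c6

end Pool.Agent.Helper72.TA
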