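import Pool.Agent.Helper95.TA.WTC

/-! Row WAJ of the sheet TA (MP_7a8f48_an): from the first coordinate to the joining. -/

set_option linter.unusedSectionVars false

open MeasureTheory Filter Topology Finset
open scoped ComplexConjugate

namespace Pool.Agent.Helper72.TA

open Pool.Agent.Helper98.TW
open Pool.Agent.Helper40.TWM (St)
open Pool.Agent.Helper98.GY (JY)
open Pool.Agent.Helper98.TA
open Pool.Agent.Helper59.TWR (Wi_one al_cm)

section

variable {Ω : Type} [m0 : MeasurableSpace Ω] {μ : Measure Ω} [IsProbabilityMeasure μ]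
  {S S' : Ω → Ω} {s : SA Ω} {f : Ω → ℂ} {p q : ℕ} {κ : Measure (Ω × Ω)}

/-- the iterates of the product in the first coordinate -/
theorem map_iter_fst (R T : Ω → Ω) (k : ℕ) (z : Ω × Ω) :
    ((Prod.map R T)^[k] z).1 = R^[k] z.1 := by
  rw [Prod.map_iterate]
  rfl

/-- the correlations for `jo (J1 s) (J2 s)` are those for `J1 s` -/
theorem al_ri (hS : Measurable S) (hRi : Ri μ S s) (hf : BF f) (hp : 1 ≤ p) (hq : 1 ≤ q)
    (hκ : JY S μ p q κ) (H : ℕ) :
    al κ (jo (J1 s) (J2 s)) (Prod.map S^[p] S^[q]) (fun _ => (1 : ℂ →L[ℂ] ℂ))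
      (fun z => f z.1) H =
    al κ (J1 s) (Prod.map S^[p] S^[q]) (fun _ => (1 : ℂ →L[ℂ] ℂ)) (fun z => f z.1) H := by
  obtain ⟨hfm, B, hB⟩ := hf
  unfold al
  congr 1
  refine Finset.sum_congr rfl fun h _ => ?_
  simp only [Wi_one, map_iter_fst]
  have hG : BF (fun x => (inner ℂ (f x) (f ((S^[p])^[h] x)) : ℂ)) := by
    refine ⟨hfm.inner (hfm.comp ((hS.iterate p).iterate h)), B * B, fun x => ?_⟩
    exact (norm_inner_le_norm _ _).trans
      (mul_le_mul (hB _) (hB _) (norm_nonneg _) ((norm_nonneg _).trans (hB x)))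
  have h1 := hRi p q κ hp hq hκ (fun x => (inner ℂ (f x) (f ((S^[p])^[h] x)) : ℂ)) hG
  refine integral_congr_ae ?_
  filter_upwards [h1] with z hz
  rw [hz]

end

/-- WAJ -/
theorem st_WAJ : ST_WAJ := by
  intro Ω m0 μ hμ S S' s E f p q κ hSt hs hE hq hf hRi hA hp hq1 hκ
  have hP : IsProbabilityMeasure κ := hκ.prob
  have hS : Sys μ S S' := Pool.Agent.Helper98.TA.St.s1 hSt
  have hSm : Measurable S^[p] := (hS.iterate p).mp.measurable
  have h1 : A0 μ s S^[p] f := Pool.Agent.Helper95.TA.A0_mono hs.1 hE.1 hq hSm hf hA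
  unfold A0 at h1 ⊢
  refine h1.congr fun H => ?_
  rw [al_ri hS.mp.measurable hRi hf hp hq1 hκ H]
  exact (al_cm (jy_mp1 hκ) hs.1 (fun _ => rfl) hSm hf H).symm

end Pool.Agent.Helper72.TA
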